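import Mathlib
import Pool.Agent.H.MP_113557_an.A

namespace Pool.Agent.Results.MP_113557_an.NonUnique

open Filter Topology Set MeasureTheory

lemma sq_le {g : ℝ} {i : ℤ} {t : ℝ} (hi : 1 ≤ i) (ht : t < i + 1) (ht0 : 0 ≤ t)
    (h : (i : ℝ) ^ 2 * |g| ≤ 36) : t ^ 2 * |g| ≤ 144 ∧ |g| ≤ 36 := by
  have h1 : (1 : ℝ) ≤ i := by exact_mod_cast hi
  have h2 : t ^ 2 ≤ 4 * (i : ℝ) ^ 2 := by nlinarith
  have h3 := abs_nonneg g
  have h4 : (1 : ℝ) ≤ (i : ℝ) ^ 2 := by nlinarith
  constructor <;> nlinarith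

lemma line_zero {g : ℝ → ℤ → ℝ} {q : ℝ} {n : ℕ → ℕ} (hn : StrictMono n)
    (hg : Measurable fun x : ℝ × ℤ => g x.1 x.2) (hs : ∀ s i, g s i ≠ 0 → 1 ≤ i ∧ |s| ≤ i)
    (hb : ∀ s (i : ℤ), (i : ℝ) ^ 2 * |g s i| ≤ 36) (j : ℕ)
    (hz : ∀ k, j < k → ∀ m, ∑ i ∈ Finset.range (n k), g (m + q * i) i = 0) (m : ℝ) :
    ∫ t in Ioi (0 : ℝ), g (m + q * t) ⌊t⌋ = 0 := by
  set φ : ℝ → ℝ := fun t => g (m + q * t) ⌊t⌋ with hφ
  have hm : Measurable φ := hg.comp (Measurable.prodMk (by fun_prop) Int.measurable_floor)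
  have hi : Integrable φ := by
    refine (integrable_inv_one_add_sq.const_mul 180).mono' hm.aestronglyMeasurable
      (Eventually.of_forall fun t => ?_)
    by_cases h : φ t = 0
    · rw [h, norm_zero]; positivity
    · have h1 := (hs _ _ h).1
      have h2 : (1 : ℝ) ≤ t := by simpa using Int.le_floor.1 h1
      obtain ⟨a, b⟩ := sq_le h1 (Int.lt_floor_add_one t) (by linarith) (hb (m + q * t) ⌊t⌋)
      rw [Real.norm_eq_abs, ← div_eq_mul_inv, le_div_iff₀ (by positivity)]
      simp only [hφ]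
      linarith
  have h1 := intervalIntegral_tendsto_integral_Ioi 0 hi.integrableOn
    (tendsto_natCast_atTop_atTop.comp hn.tendsto_atTop)
  refine tendsto_nhds_unique h1 (tendsto_const_nhds.congr' ?_)
  filter_upwards [eventually_gt_atTop j] with k hk
  have h2 := intervalIntegral.sum_integral_adjacent_intervals (f := φ) (μ := volume)
    (a := fun i : ℕ => (i : ℝ)) (n := n k) fun i _ => hi.intervalIntegrable
  simp only [Nat.cast_zero] at h2
  simp only [Function.comp]
  rw [← h2]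
  have h3 : ∀ i : ℕ, ∫ x in (i : ℝ)..((i + 1 : ℕ) : ℝ), φ x = ∫ x in (0 : ℝ)..1, φ (x + i) := by
    intro i
    rw [intervalIntegral.integral_comp_add_right]
    simp [add_comm]
  simp only [h3]
  rw [← intervalIntegral.integral_finsetSum fun i _ => (hi.comp_add_right _).intervalIntegrable]
  symm
  rw [intervalIntegral.integral_of_le zero_le_one, integral_Ioc_eq_integral_Ioo]
  refine setIntegral_eq_zero_of_forall_eq_zero fun x hx => ?_
  rw [← hz k hk (m + q * x)]
  refine Finset.sum_congr rfl fun i _ => ?_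
  have : ⌊x + i⌋ = i := by
    rw [Int.floor_eq_iff]; push_cast; constructor <;> linarith [hx.1, hx.2]
  simp only [hφ, this]
  congr 1; ring

theorem result : ∃ (f : EuclideanSpace ℝ (Fin 2) → ℝ) (P : Set (EuclideanSpace ℝ (Fin 2))),
    Measurable f ∧ (∃ C, ∀ x, |f x| ≤ C) ∧ (∃ R, ∀ x, R < ‖x‖ → f x = 0) ∧ P.Infinite ∧
    (∀ p ∈ P, ∀ u : EuclideanSpace ℝ (Fin 2), ‖u‖ = 1 →
      IntegrableOn (fun t : ℝ => f (p + t • u)) (Ioi 0) ∧ ∫ t in Ioi (0 : ℝ), f (p + t • u) = 0) ∧
    ¬ f =ᵐ[volume] 0 := by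
  obtain ⟨g, p, n, hp, hn, hc, hs, hb, hpos, hz⟩ := Pool.Agent.H.MP_113557_an.exists_g
  have hg : Measurable fun x : ℝ × ℤ => g x.1 x.2 :=
    measurable_from_prod_countable_left fun i => (hc i).measurable
  set f : EuclideanSpace ℝ (Fin 2) → ℝ := fun x =>
    if 0 < x 1 then (x 1)⁻¹ ^ 2 * g (x 0 / x 1) ⌊(x 1)⁻¹⌋ else 0 with hf
  have hm : Measurable f := by
    refine Measurable.ite (measurableSet_lt measurable_const (by fun_prop)) ?_ measurable_const
    refine Measurable.mul (by fun_prop) (hg.comp (Measurable.prodMk (by fun_prop) ?_))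
    exact Int.measurable_floor.comp (by fun_prop)
  have hbd : ∀ x, |f x| ≤ 144 := by
    intro x
    simp only [hf]
    split_ifs with h
    · by_cases h0 : g (x 0 / x 1) ⌊(x 1)⁻¹⌋ = 0
      · simp [h0]
      · rw [abs_mul, abs_of_nonneg (by positivity)]
        exact (sq_le (hs _ _ h0).1 (Int.lt_floor_add_one _) (by positivity) (hb _ _)).1
    · simp
  have hR : ∀ x, 2 < ‖x‖ → f x = 0 := by
    intro x hx
    by_contra h
    simp only [hf] at h
    split_ifs at h with h1
    · obtain ⟨a, b⟩ := hs _ _ (right_ne_zero_of_mul h)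
      have c := Int.floor_le (x 1)⁻¹
      have a' : (1 : ℝ) ≤ (x 1)⁻¹ := by simpa using Int.le_floor.1 a
      have a2 : x 1 ≤ 1 := by rwa [one_le_inv₀ h1] at a'
      have b2 : |x 0| ≤ 1 := by
        have := b.trans c
        rwa [abs_div, abs_of_pos h1, div_le_iff₀ h1, inv_mul_cancel₀ h1.ne'] at this
      have h2 := EuclideanSpace.real_norm_sq_eq x
      rw [Fin.sum_univ_two] at h2
      rw [abs_le] at b2
      nlinarith [b2.1, b2.2]
    · exact h rfl
  refine ⟨f, range fun j => !₂[p j, 0], hm, ⟨_, hbd⟩, ⟨_, hR⟩, ?_, ?_, fun h => ?_⟩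
  · refine infinite_range_of_injective fun a b h => hp ?_
    simpa using congrArg (fun x : EuclideanSpace ℝ (Fin 2) => x 0) h
  · rintro _ ⟨j, rfl⟩ u hu
    constructor
    · have hm2 : Measurable fun t : ℝ => f (!₂[p j, 0] + t • u) := hm.comp (by fun_prop)
      have hI : IntegrableOn (fun _ : ℝ => (144 : ℝ)) (Icc 0 (2 + ‖!₂[p j, 0]‖)) :=
        integrableOn_const (by simp)
      refine ((integrable_indicator_iff measurableSet_Icc).2 hI).integrableOn.mono'
        hm2.aestronglyMeasurable ?_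
      filter_upwards [ae_restrict_mem measurableSet_Ioi] with t ht
      have ht : 0 < t := ht
      by_cases h : t ≤ 2 + ‖!₂[p j, 0]‖
      · rw [indicator_of_mem (show t ∈ Icc 0 _ from ⟨ht.le, h⟩)]; exact hbd _
      · rw [hR, norm_zero]
        · exact indicator_nonneg (fun _ _ => by norm_num) _
        · have := norm_sub_le (!₂[p j, 0] + t • u) !₂[p j, 0]
          rw [add_sub_cancel_left, norm_smul, hu, Real.norm_eq_abs, abs_of_pos ht] at this
          linarith
    · by_cases h1 : 0 < u 1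
      · have h2 := line_zero hn hg hs hb j (hz j) (u 0 / u 1)
        rw [← integral_comp_rpow_Ioi _ (p := -1) (by norm_num)] at h2
        have h3 := integral_comp_mul_right_Ioi (fun x : ℝ => (|(-1 : ℝ)| * x ^ (-1 - 1 : ℝ)) •
          g (u 0 / u 1 + p j * x ^ (-1 : ℝ)) ⌊x ^ (-1 : ℝ)⌋) 0 h1
        rw [zero_mul, h2, smul_zero] at h3
        refine (setIntegral_congr_fun measurableSet_Ioi fun (t : ℝ) ht => ?_).trans h3
        have ht : (0 : ℝ) < t := ht
        have h4 : 0 < t * u 1 := mul_pos ht h1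
        have e1 : (!₂[p j, 0] + t • u) 1 = t * u 1 := by simp
        have e0 : (!₂[p j, 0] + t • u) 0 = p j + t * u 0 := by simp
        simp only [hf, e1, e0, if_pos h4, Real.rpow_neg_one, smul_eq_mul]
        rw [show (-1 - 1 : ℝ) = -((2 : ℕ) : ℝ) by norm_num, Real.rpow_neg h4.le, Real.rpow_natCast,
          inv_pow]
        congr 2
        · simp
        · field_simp; ring
      · refine setIntegral_eq_zero_of_forall_eq_zero fun t ht => ?_
        have ht : 0 < t := ht
        have e1 : (!₂[p j, 0] + t • u) 1 = t * u 1 := by simp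
        simp only [hf, e1]
        rw [if_neg (by nlinarith)]
  · set O : Set (EuclideanSpace ℝ (Fin 2)) := {x | 1 / 2 < x 1} ∩ ({x | x 1 < 1} ∩ {x | |x 0| < x 1})
    have hO : IsOpen O := (isOpen_lt continuous_const (by fun_prop)).inter
      ((isOpen_lt (by fun_prop) continuous_const).inter (isOpen_lt (by fun_prop) (by fun_prop)))
    have hne : O.Nonempty := ⟨!₂[0, 3 / 4], by simp [O]; norm_num⟩
    refine (hO.measure_pos volume hne).ne' (measure_mono_null (fun x hx => ?_) h)
    obtain ⟨a, b, c⟩ := hx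
    simp only [mem_ofPred_eq] at a b c
    have h1 : 0 < x 1 := by linarith
    have h2 : ⌊(x 1)⁻¹⌋ = 1 := by
      rw [Int.floor_eq_iff]; push_cast
      constructor
      · exact (one_le_inv₀ h1).2 b.le
      · rw [inv_lt_comm₀ h1 (by norm_num)]; linarith
    have h3 : 0 < g (x 0 / x 1) 1 := hpos _ (by rwa [abs_div, abs_of_pos h1, div_lt_one h1])
    have : 0 < f x := by
      simp only [hf, if_pos h1, h2]; positivity
    exact this.ne'

end Pool.Agent.Results.MP_113557_an.NonUnique
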